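import Pool.Agent.Helper52.NW.FIN
import Pool.Agent.Helper67.NW.CRX
import Pool.Agent.Helper74.NW.ZED
import Pool.Agent.Helper80.NIL.NILP
import Pool.Agent.Helper13.NW.SCH
import Pool.Agent.Helper23.NW.INF
import Pool.Agent.Helper38.NW.TWO
import Pool.Agent.Helper66.NW.PER
import Pool.Agent.Helper77.NW.STL
import Pool.Agent.Helper50.NW.DEG
import Pool.Agent.Helper82.NW.CYC
import Pool.Agent.Helper53.NW.CYN
import Pool.Agent.Helper96.NW.CYL
import Pool.Agent.Helper22.NW.NCR
import Pool.Agent.Helper7.NW.TTW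

set_option autoImplicit false

namespace Pool.Agent.Helper52.NW

open Pool.Agent.Helper61.NW

universe u

theorem final : FinStmt.{u} :=
  fin Pool.Agent.Helper74.NW.zed Pool.Agent.Helper80.NIL.nil Pool.Agent.Helper13.NW.sch
    Pool.Agent.Helper23.NW.inf Pool.Agent.Helper38.NW.two
    (Pool.Agent.Helper7.NW.ttw Pool.Agent.Helper66.NW.per Pool.Agent.Helper77.NW.stl
      Pool.Agent.Helper50.NW.deg Pool.Agent.Helper82.NW.cyc Pool.Agent.Helper53.NW.cyn
      Pool.Agent.Helper67.NW.crx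
      (Pool.Agent.Helper22.NW.ncr Pool.Agent.Helper96.NW.cyl))

end Pool.Agent.Helper52.NW
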