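import Pool.Agent.Helper52.NW.FN3
import Pool.Agent.Helper35.NW.ZD2
import Pool.Agent.Helper80.NIL.VNL
import Pool.Agent.Helper23.NW.IN3
import Pool.Agent.Helper55.NW.TEN
import Pool.Agent.Helper24.NW.DIH
import Pool.Agent.Helper66.NW.LPR
import Pool.Agent.Helper77.NW.LST
import Pool.Agent.Helper53.NW.LCN
import Pool.Agent.Helper95.TE.LCX
import Pool.Agent.Helper22.NW.LNC
import Pool.Agent.Helper7.NW.LTT

set_option autoImplicit false

namespace Pool.Agent.Helper52.NW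

open Pool.Agent.Helper61.NW

universe u

theorem ltt : LttStmt :=
  Pool.Agent.Helper7.NW.ltt Pool.Agent.Helper66.NW.lpr Pool.Agent.Helper77.NW.lst
    Pool.Agent.Helper50.NW.deg Pool.Agent.Helper82.NW.cyc Pool.Agent.Helper53.NW.lcn
    Pool.Agent.Helper95.TE.lcx (Pool.Agent.Helper22.NW.lnc Pool.Agent.Helper96.NW.cyl)

theorem final3 : Fn3Stmt.{u} :=
  fn3 Pool.Agent.Helper35.NW.zd2 Pool.Agent.Helper80.NIL.vnl Pool.Agent.Helper23.NW.in3
    Pool.Agent.Helper55.NW.ten Pool.Agent.Helper24.NW.dih ltt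

end Pool.Agent.Helper52.NW
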