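import Pool.Agent.Helper61.NW.Goals
import Pool.Agent.Helper74.NW.LK

set_option autoImplicit false

namespace Pool.Agent.Helper52.NW

open Pool.Agent.Helper52.Wq2 Pool.Agent.Helper61.NW

universe u

/-- A power of every element is central, if the quotient by a finite normal subgroup is
abelian. -/
theorem pow_central {Γ A : Type*} [Group Γ] [CommGroup A] (h : Γ →* A)
    (hK : (h.ker : Set Γ).Finite) : ∃ m : ℕ, 0 < m ∧ ∀ g x : Γ, g ^ m * x = x * g ^ m := by
  have hF : Finite h.ker := hK.to_subtype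
  have hFA : Finite (MulAut h.ker) := Finite.of_injective (fun e : MulAut h.ker => (e : h.ker → h.ker))
    (fun e f hef => MulEquiv.ext fun x => congrFun hef x)
  refine ⟨Nat.card (MulAut h.ker) * Nat.card h.ker, Nat.mul_pos Nat.card_pos Nat.card_pos, ?_⟩
  intro g x
  set a := Nat.card (MulAut h.ker) with ha
  have h1 : ∀ k ∈ h.ker, g ^ a * k = k * g ^ a := by
    intro k hk
    have h2 : (MulAut.conjNormal g : MulAut h.ker) ^ a = 1 := pow_card_eq_one'
    rw [← map_pow] at h2
    have h3 : ((MulAut.conjNormal (g ^ a) : MulAut h.ker) ⟨k, hk⟩ : Γ) = k := by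
      rw [h2]; rfl
    rw [MulAut.conjNormal_apply] at h3
    exact mul_inv_eq_iff_eq_mul.1 h3
  have h4 : x * g ^ a * x⁻¹ * (g ^ a)⁻¹ ∈ h.ker := by
    rw [MonoidHom.mem_ker]
    simp only [map_mul, map_inv]
    rw [mul_comm (h x) (h (g ^ a)), mul_inv_cancel_right, mul_inv_cancel]
  set c := x * g ^ a * x⁻¹ * (g ^ a)⁻¹ with hc
  have h5 : x * g ^ a * x⁻¹ = c * g ^ a := by rw [hc]; group
  have h6 : c ^ Nat.card h.ker = 1 := by
    have : (⟨c, h4⟩ : h.ker) ^ Nat.card h.ker = 1 := pow_card_eq_one'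
    exact congrArg Subtype.val this
  have h7 : Commute c (g ^ a) := (h1 c h4).symm
  have h8 : x * (g ^ a) ^ Nat.card h.ker * x⁻¹ = (g ^ a) ^ Nat.card h.ker := by
    rw [← conj_pow, h5, h7.mul_pow, h6, one_mul]
  rw [pow_mul]
  exact (mul_inv_eq_iff_eq_mul.1 h8).symm

/-- The determinant. -/
def dt (u v : ℤ × ℤ) : ℤ := u.1 * v.2 - u.2 * v.1

theorem exists_ind {Γ : Type*} [Group Γ] (h : Γ →* Multiplicative (ℤ × ℤ)) (S : Set Γ)
    (hs : Function.Surjective h) (hS : Subgroup.closure S = ⊤) :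
    ∃ s ∈ S, ∃ t ∈ S, dt (h s).toAdd (h t).toAdd ≠ 0 := by
  by_contra hcon
  push Not at hcon
  have k1 : ∀ s ∈ S, ∀ y : Γ, dt (h s).toAdd (h y).toAdd = 0 := by
    intro s hsS y
    have hy : y ∈ Subgroup.closure S := by rw [hS]; exact Subgroup.mem_top _
    induction hy using Subgroup.closure_induction with
    | mem y hy => exact hcon s hsS y hy
    | one => simp [dt]
    | mul a b _ _ ha hb =>
      simp only [dt, map_mul, toAdd_mul, Prod.fst_add, Prod.snd_add] at ha hb ⊢
      linear_combination ha + hb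
    | inv a _ ha =>
      simp only [dt, map_inv, toAdd_inv, Prod.fst_neg, Prod.snd_neg] at ha ⊢
      linear_combination -ha
  have k2 : ∀ x y : Γ, dt (h x).toAdd (h y).toAdd = 0 := by
    intro x y
    have hx : x ∈ Subgroup.closure S := by rw [hS]; exact Subgroup.mem_top _
    induction hx using Subgroup.closure_induction with
    | mem x hx => exact k1 x hx y
    | one => simp [dt]
    | mul a b _ _ ha hb =>
      simp only [dt, map_mul, toAdd_mul, Prod.fst_add, Prod.snd_add] at ha hb ⊢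
      linear_combination ha + hb
    | inv a _ ha =>
      simp only [dt, map_inv, toAdd_inv, Prod.fst_neg, Prod.snd_neg] at ha ⊢
      linear_combination -ha
  obtain ⟨x, hx⟩ := hs (Multiplicative.ofAdd ((1 : ℤ), (0 : ℤ)))
  obtain ⟨y, hy⟩ := hs (Multiplicative.ofAdd ((0 : ℤ), (1 : ℤ)))
  have := k2 x y
  rw [hx, hy] at this
  simp [dt] at this

/-- **GR2**, with the conclusion `KN`. -/
theorem gr2k (Γ : Type u) [Group Γ] (h : Γ →* Multiplicative (ℤ × ℤ)) (S : Set Γ)
    (hs : Function.Surjective h) (hK : (h.ker : Set Γ).Finite) (hk : ∃ k : Γ, k ≠ 1 ∧ h k = 1)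
    (hS : IsGen S) : KN (cay S) := by
  obtain ⟨s, hsS, t, htS, hst⟩ := exists_ind h S hs hS.1
  obtain ⟨m, hm, hc⟩ := pow_central h hK
  obtain ⟨k, hk1, hk2⟩ := hk
  have hind : ∀ a b : ℤ, h (s ^ a * t ^ b) = 1 → a = 0 ∧ b = 0 := by
    intro a b hab
    have h1 : a • (h s).toAdd + b • (h t).toAdd = 0 := by
      have := congrArg Multiplicative.toAdd hab
      simpa [map_mul, map_zpow, toAdd_mul, toAdd_zpow] using this
    have h2 := congrArg Prod.fst h1
    have h3 := congrArg Prod.snd h1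
    simp only [Prod.fst_add, Prod.smul_fst, Prod.snd_add, Prod.smul_snd, smul_eq_mul,
      Prod.fst_zero, Prod.snd_zero] at h2 h3
    unfold dt at hst
    constructor
    · refine (mul_eq_zero.1 (?_ : a * ((h s).toAdd.1 * (h t).toAdd.2 -
        (h s).toAdd.2 * (h t).toAdd.1) = 0)).resolve_right hst
      linear_combination (h t).toAdd.2 * h2 - (h t).toAdd.1 * h3
    · refine (mul_eq_zero.1 (?_ : b * ((h s).toAdd.1 * (h t).toAdd.2 -
        (h s).toAdd.2 * (h t).toAdd.1) = 0)).resolve_right hst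
      linear_combination (h s).toAdd.1 * h3 - (h s).toAdd.2 * h2
  obtain ⟨φ, h1, h2, h3⟩ := Pool.Agent.Helper74.NW.lemK hS.1 s t hsS htS m hm
    (fun g => hc s g) (fun g => hc t g) (fun a b hab => hind a b (by rw [hab, map_one])) k (by
      intro a b hab
      have h4 := hind a b (by rw [← hab, hk2])
      obtain ⟨rfl, rfl⟩ := h4
      exact hk1 (by rw [hab]; simp))
  refine ⟨φ, fun v => (conn_iff _ _).1 (h1 v), ?_, ?_⟩
  · intro v w x hx hy
    by_contra hne
    exact Set.disjoint_left.1 (h2 v w hne) hx hy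
  · intro v w hvw
    exact h3 v w hvw.ne

end Pool.Agent.Helper52.NW
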