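import Pool.Agent.Helper61.NW.Goals
import Pool.Agent.Helper52.NW.SEQ
import Pool.Agent.Helper52.NW.GR2

set_option autoImplicit false

namespace Pool.Agent.Helper52.NW

open Pool.Agent.Helper52.Wq2 Pool.Agent.Helper61.NW
open scoped Nat

universe u

theorem t2_of_t1 {V : Type*} (hV : Nonempty V) {G : SimpleGraph V} {N : ℕ} (h : T1 G N) :
    T2 G N := by
  obtain ⟨⟨D, ⟨e⟩⟩, h2⟩ := h
  have hN : 0 < N := by
    obtain ⟨v⟩ := hV
    exact Nat.pos_of_ne_zero fun h0 => by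
      subst h0
      exact (e v).2.elim0
  refine ⟨⟨N, ?_, D, ⟨e⟩⟩, ?_⟩
  · have h3 : 1 ≤ N ! * N := Nat.mul_pos (Nat.factorial_pos N) hN
    calc N = N * 1 := (mul_one N).symm
      _ ≤ N * (N ! * N) := Nat.mul_le_mul_left N h3
  · intro p hp
    have h4 : (2 * p) ^ (6 * p) ≤ (2 * p + 3) ^ (8 * p + 6) :=
      (Nat.pow_le_pow_left (by omega) _).trans (Nat.pow_le_pow_right (by omega) (by omega))
    have h5 : 8 * p + 6 < (2 * p + 3) ^ (8 * p + 6) := Nat.lt_pow_self (by omega)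
    rcases h2 (by omega) with hr | hc
    · exact Or.inl (hr p (by omega) (by omega))
    · exact Or.inr ⟨hc.1, 3 * N, hc.2⟩

theorem types_comm {Γ : Type u} [CommGroup Γ] (hΓ : Infinite Γ) {S : Set Γ} (hS : IsGen S)
    (hfin : S.Finite) :
    KN (cay S) ∨ (∃ b, Nonempty (cay S ≃g Lat b)) ∨ ∃ n, T2 (cay S) n := by
  rcases ind_or_R1 hΓ hS hfin with ⟨s, hs, t, ht, hind⟩ | ⟨s, N, F, h⟩
  · rcases rank2 hS hs ht hind with h | h
    · exact Or.inl h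
    · exact Or.inr (Or.inl h)
  · exact Or.inr (Or.inr ⟨N, t2_of_t1 ⟨1⟩ h.t1⟩)

theorem types_comm' {Γ : Type u} [G : Group Γ] (hΓ : Infinite Γ)
    (hcomm : ∀ a b : Γ, a * b = b * a) {S : Set Γ} (hS : IsGen S) (hfin : S.Finite) :
    KN (cay S) ∨ (∃ b, Nonempty (cay S ≃g Lat b)) ∨ ∃ n, T2 (cay S) n := by
  let C : CommGroup Γ := { G with mul_comm := hcomm }
  exact @types_comm Γ C hΓ S hS hfin

theorem typ (hZ : ZedStmt.{u}) (hN : NilStmt.{u}) (hC : SchStmt.{u}) (hI : InfStmt.{u})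
    (hT : TwoStmt.{u}) (hW : TtwStmt.{u}) {Γ : Type u} [Group Γ]
    (hΓ : Infinite Γ) {S : Set Γ} (hS : IsGen S)
    (h : Group.IsNilpotent Γ ∨ (Subgroup.center Γ).FiniteIndex) :
    KN (cay S) ∨ (∃ b, Nonempty (cay S ≃g Lat b)) ∨ ∃ n, T2 (cay S) n := by
  by_cases hfin : S.Finite
  swap
  · exact Or.inl (hI Γ S hΓ hS hfin h)
  have hFG : Group.FG Γ := Group.fg_iff.2 ⟨S, hS.1, hfin⟩
  have h1 : (Subgroup.center Γ).FiniteIndex ∨ Big Γ := by
    rcases h with h | h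
    · exact hN Γ hFG hΓ h
    · exact Or.inl h
  rcases h1 with h1 | h1
  swap
  · exact Or.inl (hZ Γ S hS hfin h1)
  rcases hC Γ hFG hΓ h1 with h2 | ⟨f, hf1, hf2⟩ | ⟨f, hf1, hf2⟩
  · exact Or.inl (hZ Γ S hS hfin h2)
  · obtain ⟨h', s, H, n, m, ht⟩ := hT Γ f S hf1 hf2 hS hfin
    exact Or.inr (Or.inr ⟨n, hW Γ S h' s H n m ht⟩)
  · by_cases hk : ∃ k : Γ, k ≠ 1 ∧ f k = 1
    · exact Or.inl (gr2k Γ f S hf1 hf2 hk hS)
    · refine types_comm' hΓ ?_ hS hfin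
      intro a b
      by_contra hab
      refine hk ⟨a * b * (b * a)⁻¹, ?_, ?_⟩
      · intro h3
        exact hab (mul_inv_eq_one.1 h3)
      · rw [map_mul, map_inv, map_mul, map_mul, mul_comm (f a) (f b), mul_inv_cancel]

theorem fin (hZ : ZedStmt.{u}) (hN : NilStmt.{u}) (hC : SchStmt.{u}) (hI : InfStmt.{u})
    (hT : TwoStmt.{u}) (hW : TtwStmt.{u}) : FinStmt.{u} := by
  intro Γ _ _ S hS h
  refine seq Γ (fun i => cay (S i)) (fun i => ?_)
  rcases h i with ⟨h1, h2⟩ | h1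
  · exact typ hZ hN hC hI hT hW h1 (hS i) h2
  · exact Or.inl h1

end Pool.Agent.Helper52.NW
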