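import Pool.Agent.Helper61.NW.Goals2

set_option autoImplicit false

namespace Pool.Agent.Helper52.NW

open Pool.Agent.Helper52.Wq2 Pool.Agent.Helper61.NW
open scoped Nat

universe u

/-- Sequences of graphs of the types that occur. -/
theorem sq3 : Sq3Stmt.{u} := by
  classical
  intro V _ G h
  by_contra hcon
  push Not at hcon
  have hu : ∀ j, 1 ≤ j → ¬ Mn (⊤ : SimpleGraph ℕ) (G j) := by
    intro j hj hM
    obtain ⟨e, he⟩ := exists_injective_nat (V 0)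
    have h0 : Mn (G 0) (⊤ : SimpleGraph ℕ) :=
      Mn.of_inj e he (fun a b hab => fun h' => hab.ne (he h'))
    exact hcon 0 j (by omega) (h0.trans hM)
  have hiso : ∀ {W : Type} (X : SimpleGraph W), ∃ K, ∀ i, K ≤ i → ¬ Nonempty (G i ≃g X) := by
    intro W X
    by_cases hx : ∃ i, Nonempty (G i ≃g X)
    · obtain ⟨i, ⟨e⟩⟩ := hx
      refine ⟨i + 1, ?_⟩
      rintro j hj ⟨f⟩
      exact hcon i j (by omega) (Mn.of_iso (e.trans f.symm))
    · exact ⟨0, fun i _ hi => hx ⟨i, hi⟩⟩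
  obtain ⟨K0, hK0⟩ := hiso (Lat false)
  obtain ⟨K1, hK1⟩ := hiso (Lat true)
  have hbig : ∀ B : ℕ, ∃ K, ∀ i, K ≤ i → ∃ n, B < n ∧ T3 (G i) n := by
    intro B
    have hall : ∀ a : (Σ N : Fin (B * (2 * (B ! * (B * B))) + 1),
        (Fin (N : ℕ) → Fin (N : ℕ) → Fin 3 → Bool)),
        ∃ K, ∀ i, K ≤ i → ¬ Nonempty (G i ≃g Per (a.1 : ℕ) a.2) := fun a => hiso _
    choose K hK using hall
    refine ⟨max 1 (max K0 (max K1 (Finset.univ.sup K))), ?_⟩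
    intro i hi
    have hi1 : 1 ≤ i := le_trans (le_max_left _ _) hi
    have hi2 : max K0 (max K1 (Finset.univ.sup K)) ≤ i := le_trans (le_max_right _ _) hi
    have hi3 : K0 ≤ i := le_trans (le_max_left _ _) hi2
    have hi4 : max K1 (Finset.univ.sup K) ≤ i := le_trans (le_max_right _ _) hi2
    have hi5 : K1 ≤ i := le_trans (le_max_left _ _) hi4
    have hi6 : Finset.univ.sup K ≤ i := le_trans (le_max_right _ _) hi4
    rcases h i with h1 | ⟨b, hb⟩ | ⟨n, hn⟩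
    · exact absurd h1 (hu i hi1)
    · cases b
      · exact absurd hb (hK0 i hi3)
      · exact absurd hb (hK1 i hi5)
    · by_cases hnB : n ≤ B
      · obtain ⟨N, hN, D, hD⟩ := hn.1
        have hNB : N ≤ B * (2 * (B ! * (B * B))) :=
          hN.trans (Nat.mul_le_mul hnB (Nat.mul_le_mul_left 2
            (Nat.mul_le_mul (Nat.factorial_le hnB) (Nat.mul_le_mul hnB hnB))))
        exact absurd hD (hK ⟨⟨N, by omega⟩, D⟩ i
          (le_trans (Finset.le_sup (f := K) (Finset.mem_univ _)) hi6))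
      · exact ⟨n, by omega, hn⟩
  obtain ⟨i₁, hi₁⟩ := hbig 5
  obtain ⟨n₁, _, ⟨p, _, D, ⟨e⟩⟩, _⟩ := hi₁ i₁ (le_refl _)
  have hGp : Mn (G i₁) (Pk p) := (Mn.of_iso e).trans (per_pk p D)
  obtain ⟨K, hK⟩ := hbig ((2 * p + 3) ^ (8 * p + 6) + 5)
  have hcyl : ∀ i, i₁ < i → ∀ n, (2 * p + 3) ^ (8 * p + 6) + 5 < n → T3 (G i) n →
      Mn (Cyl n) (G i) ∧ ∃ M₀ : ℕ, ∀ M, M₀ ≤ M → Mn (G i) (Cyl M) := by
    intro i hi n hn hT
    rcases hT.2 p hn.le with hr | hc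
    · exact absurd (hGp.trans hr) (hcon i₁ i hi)
    · exact hc
  obtain ⟨n₂, hn₂, hT₂⟩ := hK (max K (i₁ + 1)) (le_max_left _ _)
  obtain ⟨_, M₀, hM₀⟩ := hcyl (max K (i₁ + 1)) (by omega) n₂ hn₂ hT₂
  obtain ⟨K₃, hK₃⟩ := hbig (max M₀ ((2 * p + 3) ^ (8 * p + 6) + 5))
  have hi₃ : max K (i₁ + 1) < max K₃ (max K (i₁ + 1) + 1) := by omega
  obtain ⟨n₃, hn₃, hT₃⟩ := hK₃ (max K₃ (max K (i₁ + 1) + 1)) (le_max_left _ _)
  have h5 : M₀ < n₃ := lt_of_le_of_lt (le_max_left _ _) hn₃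
  have h6 : (2 * p + 3) ^ (8 * p + 6) + 5 < n₃ := lt_of_le_of_lt (le_max_right _ _) hn₃
  obtain ⟨h7, _⟩ := hcyl _ (by omega) n₃ h6 hT₃
  exact hcon _ _ hi₃ ((hM₀ n₃ h5.le).trans h7)

end Pool.Agent.Helper52.NW
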