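import Pool.Agent.Helper61.NW.Goals2
import Pool.Agent.Helper52.NW.SQ3
import Pool.Agent.Helper52.NW.Asm

set_option autoImplicit false

namespace Pool.Agent.Helper52.NW

open Pool.Agent.Helper52.Wq2 Pool.Agent.Helper61.NW
open scoped Nat

universe u

theorem t3_of_t2 {V : Type*} {G : SimpleGraph V} {n : ℕ} (h : T2 G n) : T3 G n := by
  obtain ⟨⟨N, hN, hD⟩, h2⟩ := h
  refine ⟨⟨N, hN.trans (Nat.mul_le_mul_left n ?_), hD⟩, h2⟩
  have h1 : n ≤ n * n := Nat.le_mul_self n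
  have h3 : n ! * n ≤ n ! * (n * n) := Nat.mul_le_mul_left _ h1
  omega

theorem t3_iso {V W : Type*} {G : SimpleGraph V} {G' : SimpleGraph W} (e : G ≃g G') {n : ℕ}
    (h : T3 G' n) : T3 G n := by
  obtain ⟨⟨N, hN, D, ⟨f⟩⟩, h2⟩ := h
  refine ⟨⟨N, hN, D, ⟨e.trans f⟩⟩, ?_⟩
  intro p hp
  rcases h2 p hp with h3 | ⟨h3, M₀, h4⟩
  · exact Or.inl (h3.trans (Mn.of_iso e.symm))
  · exact Or.inr ⟨h3.trans (Mn.of_iso e.symm), M₀, fun M hM => (Mn.of_iso e).trans (h4 M hM)⟩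

theorem two_ended (hDi : DihStmt.{u}) (hL : LttStmt) (hTe : TenStmt.{u}) {Γ : Type u} [Group Γ]
    (hΓ : Infinite Γ) {S : Set Γ} (hS : IsGen S) (hfin : S.Finite)
    (h : ∃ c : Γ, (Subgroup.zpowers c).FiniteIndex) : ∃ n, T3 (cay S) n := by
  rcases hTe Γ hΓ h with ⟨f, hf1, hf2⟩ | ⟨ε, f, hf⟩
  · obtain ⟨h', s, H, n, m, ht⟩ := Pool.Agent.Helper38.NW.two Γ f S hf1 hf2 hS hfin
    have hW := Pool.Agent.Helper7.NW.ttw Pool.Agent.Helper66.NW.per Pool.Agent.Helper77.NW.stl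
      Pool.Agent.Helper50.NW.deg Pool.Agent.Helper82.NW.cyc Pool.Agent.Helper53.NW.cyn
      Pool.Agent.Helper67.NW.crx
      (Pool.Agent.Helper22.NW.ncr Pool.Agent.Helper96.NW.cyl) Γ S h' s H n m ht
    exact ⟨n, t3_of_t2 hW⟩
  · obtain ⟨n, m, G, hm, hG, ⟨e⟩⟩ := hDi Γ ε f S hf hS hfin
    exact ⟨n, t3_iso e (hL n m G hG hm)⟩

theorem typ3 (hZ : Zd2Stmt.{u}) (hV : VnlStmt.{u}) (hI : In3Stmt.{u}) (hTe : TenStmt.{u})
    (hDi : DihStmt.{u}) (hL : LttStmt) {Γ : Type u} [Group Γ]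
    (hΓ : Infinite Γ) {S : Set Γ} (hS : IsGen S)
    (h : Group.IsNilpotent Γ ∨ (Subgroup.center Γ).FiniteIndex ∨
      ((∃ N : Subgroup Γ, N.FiniteIndex ∧ Group.IsNilpotent N) ∧
        ¬ ∃ A : Subgroup Γ, A.FiniteIndex ∧ Nonempty (A ≃* Multiplicative (ℤ × ℤ)))) :
    KN (cay S) ∨ (∃ b, Nonempty (cay S ≃g Lat b)) ∨ ∃ n, T3 (cay S) n := by
  have old : Group.IsNilpotent Γ ∨ (Subgroup.center Γ).FiniteIndex →
      KN (cay S) ∨ (∃ b, Nonempty (cay S ≃g Lat b)) ∨ ∃ n, T3 (cay S) n := by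
    intro h
    rcases typ Pool.Agent.Helper74.NW.zed Pool.Agent.Helper80.NIL.nil Pool.Agent.Helper13.NW.sch
      Pool.Agent.Helper23.NW.inf Pool.Agent.Helper38.NW.two
      (Pool.Agent.Helper7.NW.ttw Pool.Agent.Helper66.NW.per Pool.Agent.Helper77.NW.stl
        Pool.Agent.Helper50.NW.deg Pool.Agent.Helper82.NW.cyc Pool.Agent.Helper53.NW.cyn
        Pool.Agent.Helper67.NW.crx
        (Pool.Agent.Helper22.NW.ncr Pool.Agent.Helper96.NW.cyl)) hΓ hS h with h | h | ⟨n, h⟩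
    · exact Or.inl h
    · exact Or.inr (Or.inl h)
    · exact Or.inr (Or.inr ⟨n, t3_of_t2 h⟩)
  rcases h with h | h | ⟨h, hA⟩
  · exact old (Or.inl h)
  · exact old (Or.inr h)
  by_cases hfin : S.Finite
  swap
  · exact Or.inl (hI Γ S hΓ hS hfin h)
  have hFG : Group.FG Γ := Group.fg_iff.2 ⟨S, hS.1, hfin⟩
  rcases hV Γ hFG hΓ h with h1 | h1 | h1
  · exact Or.inl (hZ Γ S hS hfin h1)
  · exact absurd h1 hA
  · exact Or.inr (Or.inr (two_ended hDi hL hTe hΓ hS hfin h1))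

theorem fn3 (hZ : Zd2Stmt.{u}) (hV : VnlStmt.{u}) (hI : In3Stmt.{u}) (hTe : TenStmt.{u})
    (hDi : DihStmt.{u}) (hL : LttStmt) : Fn3Stmt.{u} := by
  intro Γ _ _ S hS h
  refine sq3 Γ (fun i => cay (S i)) (fun i => ?_)
  rcases h i with ⟨h1, h2⟩ | h1
  · exact typ3 hZ hV hI hTe hDi hL h1 (hS i) h2
  · exact Or.inl h1

end Pool.Agent.Helper52.NW
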